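import Mathlib
import Pool.Agent.MP_a6e297_an.Defs

section

/-! The measure theoretic part: a cover for the averaged semimetric colours most group elements
so that equally coloured elements act almost alike. -/

namespace Pool.Agent.MP_a6e297_an

open MeasureTheory Set

variable {X : Type*} [MeasurableSpace X] {μ : Measure X}

/-- Real-valued form of a cover by `k` small pieces and one piece of small measure. -/
def Cover (μ : Measure X) (ρ : X → X → ℝ) (ε : ℝ) (k : ℕ) : Prop :=
  ∃ Y : Fin (k + 1) → Set X, (∀ i, MeasurableSet (Y i)) ∧ (∀ x, ∃ i, x ∈ Y i) ∧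
    μ.real (Y 0) < ε ∧ ∀ i : Fin k, ∀ x ∈ Y i.succ, ∀ y ∈ Y i.succ, ρ x y < ε

theorem exists_balls {ρ : X → X → ℝ} (hs : ∀ x y, ρ x y = ρ y x)
    (ht : ∀ x y z, ρ x z ≤ ρ x y + ρ y z) {s : ℝ} {M : ℕ} (hM : 0 < M) (h : Cover μ ρ s M) :
    ∃ (Y₀ : Set X) (B : Fin M → Set X) (lab : X → Fin M), MeasurableSet Y₀ ∧ μ.real Y₀ < s ∧
      (∀ c, MeasurableSet (B c)) ∧ (∀ c, ∀ y ∈ B c, ∀ y' ∈ B c, ρ y y' < 5 * s) ∧
      ∀ z, z ∉ Y₀ → ∀ y, y ∉ Y₀ → ρ z y < s → y ∈ B (lab z) := by
  classical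
  obtain ⟨Y, hY, hcov, h0, hd⟩ := h
  have hlab : ∀ z, ∃ c : Fin M, z ∉ Y 0 → z ∈ Y c.succ := by
    intro z
    obtain ⟨i, hi⟩ := hcov z
    rcases Fin.eq_zero_or_eq_succ i with rfl | ⟨c, rfl⟩
    · exact ⟨⟨0, hM⟩, fun h => absurd hi h⟩
    · exact ⟨c, fun _ => hi⟩
  choose lab hlab using hlab
  refine ⟨Y 0, fun c => ⋃ (j : Fin M) (_ : ∃ u ∈ Y c.succ, ∃ u' ∈ Y j.succ, ρ u u' < s),
    Y j.succ, lab, hY 0, h0, ?_, ?_, ?_⟩
  · intro c
    exact MeasurableSet.iUnion fun j => MeasurableSet.iUnion fun _ => hY _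
  · intro c y hy y' hy'
    simp only [mem_iUnion] at hy hy'
    obtain ⟨j, ⟨u, hu, u', hu', huu⟩, hy⟩ := hy
    obtain ⟨j', ⟨v, hv, v', hv', hvv⟩, hy'⟩ := hy'
    have a1 := hd j y hy u' hu'
    have a2 := hd c u hu v hv
    have a3 := hd j' v' hv' y' hy'
    have a4 := ht y u' y'
    have a5 := ht u' u y'
    have a6 := ht u v y'
    have a7 := ht v v' y'
    have a8 := hs u' u
    linarith
  · intro z hz y hy hzy
    simp only [mem_iUnion]
    exact ⟨lab y, ⟨z, hlab z hz, y, hlab y hy, hzy⟩, hlab y hy⟩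

theorem sum_measureReal_inter [IsFiniteMeasure μ] {ι : Type*} (F : Finset ι) (E : ι → Set X)
    (hE : ∀ g, MeasurableSet (E g)) (P : Set X) :
    ∑ g ∈ F, μ.real (P ∩ E g) =
      ∫ x in P, ∑ g ∈ F, (E g).indicator (1 : X → ℝ) x ∂μ := by
  rw [integral_finsetSum]
  · refine Finset.sum_congr rfl fun g _ => ?_
    rw [integral_indicator_one (hE g), measureReal_restrict_apply (hE g), inter_comm]
  · intro g _
    exact (integrable_const (1 : ℝ)).indicator (hE g)

omit [MeasurableSpace X] in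
theorem sum_indicator_eq_card {ι : Type*} (F : Finset ι) (E : ι → Set X) (x : X)
    [DecidablePred fun g => x ∈ E g] :
    ∑ g ∈ F, (E g).indicator (1 : X → ℝ) x = ((F.filter fun g => x ∈ E g).card : ℝ) := by
  rw [Finset.card_filter]
  push_cast
  refine Finset.sum_congr rfl fun g _ => ?_
  by_cases h : x ∈ E g <;> simp [h]

theorem integrable_sum_indicator [IsFiniteMeasure μ] {ι : Type*} (F : Finset ι) (E : ι → Set X)
    (hE : ∀ g, MeasurableSet (E g)) :
    Integrable (fun x => ∑ g ∈ F, (E g).indicator (1 : X → ℝ) x) μ :=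
  integrable_finsetSum _ fun g _ => (integrable_const (1 : ℝ)).indicator (hE g)

open Classical in
theorem sum_measureReal_le [IsFiniteMeasure μ] {ι : Type*} (F : Finset ι) (E : ι → Set X)
    (hE : ∀ g, MeasurableSet (E g)) {P : Set X} (hP : MeasurableSet P) {m : ℝ}
    (h : ∀ x ∈ P, ((F.filter fun g => x ∈ E g).card : ℝ) ≤ m) :
    ∑ g ∈ F, μ.real (P ∩ E g) ≤ m * μ.real P := by
  rw [sum_measureReal_inter F E hE]
  calc ∫ x in P, ∑ g ∈ F, (E g).indicator (1 : X → ℝ) x ∂μ ≤ ∫ _ in P, m ∂μ := by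
        refine setIntegral_mono_on (integrable_sum_indicator F E hE).integrableOn
          (integrable_const m).integrableOn hP fun x hx => ?_
        rw [sum_indicator_eq_card]
        exact h x hx
    _ = m * μ.real P := by simp [mul_comm]

open Classical in
theorem le_sum_measureReal [IsFiniteMeasure μ] {ι : Type*} (F : Finset ι) (E : ι → Set X)
    (hE : ∀ g, MeasurableSet (E g)) {P : Set X} (hP : MeasurableSet P) {m : ℝ}
    (h : ∀ x ∈ P, m ≤ ((F.filter fun g => x ∈ E g).card : ℝ)) :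
    m * μ.real P ≤ ∑ g ∈ F, μ.real (P ∩ E g) := by
  rw [sum_measureReal_inter F E hE]
  calc m * μ.real P = ∫ _ in P, m ∂μ := by simp [mul_comm]
    _ ≤ ∫ x in P, ∑ g ∈ F, (E g).indicator (1 : X → ℝ) x ∂μ := by
        refine setIntegral_mono_on (integrable_const m).integrableOn
          (integrable_sum_indicator F E hE).integrableOn hP fun x hx => ?_
        rw [sum_indicator_eq_card]
        exact h x hx

theorem card_filter_mul_le {ι : Type*} (F : Finset ι) (u : ι → ℝ) (hu : ∀ g, 0 ≤ u g) (c : ℝ)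
    [DecidablePred fun g => c ≤ u g] :
    ((F.filter fun g => c ≤ u g).card : ℝ) * c ≤ ∑ g ∈ F, u g := by
  calc ((F.filter fun g => c ≤ u g).card : ℝ) * c = ∑ _g ∈ F.filter fun g => c ≤ u g, c := by
        simp
    _ ≤ ∑ g ∈ F.filter fun g => c ≤ u g, u g :=
        Finset.sum_le_sum fun g hg => (Finset.mem_filter.1 hg).2
    _ ≤ ∑ g ∈ F, u g :=
        Finset.sum_le_sum_of_subset_of_nonneg (Finset.filter_subset _ _) fun g _ _ => hu g

theorem exists_colouring {G : Type*} [Group G] [MulAction G X] [IsProbabilityMeasure μ]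
    (hpres : ∀ g : G, MeasurePreserving (fun x : X => g • x) μ μ)
    {ρ : X → X → ℝ} (h0 : ∀ x y, 0 ≤ ρ x y) (hs : ∀ x y, ρ x y = ρ y x)
    (ht : ∀ x y z, ρ x z ≤ ρ x y + ρ y z) {s : ℝ} (hs0 : 0 < s) (hs1 : s ≤ 1) {M : ℕ}
    (hM : 0 < M) (hcov : Cover μ ρ s M) (F : Finset G) (hF : F.Nonempty) {K : ℕ}
    (hK : Cover μ (fun x y => (∑ g ∈ F, ρ (g • x) (g • y)) / F.card) (s ^ 2) K) :
    ∃ (col : G → Fin K → Fin M) (Bad : Finset G), 16 * Bad.card ≤ F.card ∧
      ∀ g ∈ F, g ∉ Bad → ∀ h ∈ F, h ∉ Bad → col g = col h →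
        μ.real {x | 5 * s ≤ ρ (g • x) (h • x)} ≤ 97 * s := by
  classical
  obtain ⟨Y₀, B, lab, hY₀, hY₀s, hB, hBd, hlab⟩ := exists_balls hs ht hM hcov
  obtain ⟨Z, hZ, hZcov, hZ0, hZd⟩ := hK
  have hFc : (0 : ℝ) < F.card := by exact_mod_cast hF.card_pos
  have hne : Nonempty X := nonempty_of_isProbabilityMeasure μ
  let P : Fin K → Set X := fun i => Z i.succ \ ⋃ (j : Fin K) (_ : j < i), Z j.succ
  have hP : ∀ i, MeasurableSet (P i) := fun i =>
    (hZ _).diff (MeasurableSet.iUnion fun j => MeasurableSet.iUnion fun _ => hZ _)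
  have hPdis : Pairwise (Function.onFun Disjoint P) := by
    intro i j hij
    rw [Function.onFun, disjoint_left]
    intro x hi hj
    rcases lt_or_gt_of_ne hij with h | h
    · exact hj.2 (mem_iUnion₂.2 ⟨i, h, hi.1⟩)
    · exact hi.2 (mem_iUnion₂.2 ⟨j, h, hj.1⟩)
  have hPcov : ∀ x, x ∉ Z 0 → ∃ i, x ∈ P i := by
    intro x hx
    obtain ⟨i, hi⟩ := hZcov x
    rcases Fin.eq_zero_or_eq_succ i with rfl | ⟨c, rfl⟩
    · exact absurd hi hx
    · obtain ⟨m, hm, hmin⟩ := (wellFounded_lt (α := Fin K)).has_min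
        {j : Fin K | x ∈ Z j.succ} ⟨c, hi⟩
      refine ⟨m, hm, fun h => ?_⟩
      obtain ⟨j, hj, hxj⟩ := mem_iUnion₂.1 h
      exact hmin j hxj hj
  have hPsum : ∀ E : Set X, MeasurableSet E → ∑ i, μ.real (P i ∩ E) ≤ μ.real E := by
    intro E hE
    rw [← measureReal_iUnion_fintype]
    · exact measureReal_mono (iUnion_subset fun i => inter_subset_right)
    · intro i j hij
      exact (hPdis hij).mono inter_subset_left inter_subset_left
    · exact fun i => (hP i).inter hE
  have hPsum1 : ∑ i, μ.real (P i) ≤ 1 := by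
    simpa using hPsum univ MeasurableSet.univ
  let E₀ : G → Set X := fun g => (fun x => g • x) ⁻¹' Y₀
  have hE₀ : ∀ g, MeasurableSet (E₀ g) := fun g => (hpres g).measurable hY₀
  have hE₀m : ∀ g, μ.real (E₀ g) = μ.real Y₀ := fun g => by
    simp only [Measure.real, E₀, (hpres g).measure_preimage hY₀.nullMeasurableSet]
  let cnt : X → ℕ := fun x => (F.filter fun g => x ∈ E₀ g).card
  have hbase : ∀ i, ∃ b : X, ∀ x ∈ P i, b ∈ P i ∧ cnt b ≤ cnt x := by
    intro i
    rcases (P i).eq_empty_or_nonempty with h | h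
    · exact ⟨Classical.arbitrary X, fun x hx => by rw [h] at hx; exact absurd hx (notMem_empty x)⟩
    · exact ⟨Function.argminOn cnt (P i) h, fun x hx =>
        ⟨Function.argminOn_mem cnt (P i) h, Function.argminOn_le cnt (P i) hx⟩⟩
  choose b hb using hbase
  let D : Fin K → G → Set X := fun i g => ((fun x => g • x) ⁻¹' B (lab (g • b i)))ᶜ
  have hD : ∀ i g, MeasurableSet (D i g) := fun i g => ((hpres g).measurable (hB _)).compl
  let err : G → ℝ := fun g => ∑ i, μ.real (P i ∩ D i g)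
  have herr0 : ∀ g, 0 ≤ err g := fun g => Finset.sum_nonneg fun i _ => measureReal_nonneg
  have hcell : ∀ i, ∑ g ∈ F, μ.real (P i ∩ D i g) ≤
      2 * ∑ g ∈ F, μ.real (P i ∩ E₀ g) + s * F.card * μ.real (P i) := by
    intro i
    have h1 : (cnt (b i) : ℝ) * μ.real (P i) ≤ ∑ g ∈ F, μ.real (P i ∩ E₀ g) :=
      le_sum_measureReal F E₀ hE₀ (hP i) fun x hx => by exact_mod_cast (hb i x hx).2
    have h2 : ∑ g ∈ F, μ.real (P i ∩ (D i g \ E₀ g)) ≤
        ((cnt (b i) : ℝ) + s * F.card) * μ.real (P i) := by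
      refine sum_measureReal_le F (fun g => D i g \ E₀ g) (fun g => (hD i g).diff (hE₀ g))
        (hP i) fun x hx => ?_
      have hbi := (hb i x hx).1
      have hsum : ∑ g ∈ F, ρ (g • b i) (g • x) < s ^ 2 * F.card := by
        have := hZd i (b i) hbi.1 x hx.1
        rwa [div_lt_iff₀ hFc] at this
      have hmark := card_filter_mul_le F (fun g => ρ (g • b i) (g • x)) (fun g => h0 _ _) s
      have hfar : ((F.filter fun g => s ≤ ρ (g • b i) (g • x)).card : ℝ) ≤ s * F.card := by
        have : ((F.filter fun g => s ≤ ρ (g • b i) (g • x)).card : ℝ) * s ≤ (s * F.card) * s := by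
          nlinarith
        exact le_of_mul_le_mul_right this hs0
      have hsub : (F.filter fun g => x ∈ D i g \ E₀ g) ⊆
          (F.filter fun g => b i ∈ E₀ g) ∪ F.filter fun g => s ≤ ρ (g • b i) (g • x) := by
        intro g hg
        rw [Finset.mem_filter] at hg
        rw [Finset.mem_union, Finset.mem_filter, Finset.mem_filter]
        by_contra hcon
        push Not at hcon
        exact hg.2.1 (hlab _ (hcon.1 hg.1) _ hg.2.2 (hcon.2 hg.1))
      have hcard := (Finset.card_le_card hsub).trans (Finset.card_union_le _ _)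
      have hcard' : ((F.filter fun g => x ∈ D i g \ E₀ g).card : ℝ) ≤
          (cnt (b i) : ℝ) + ((F.filter fun g => s ≤ ρ (g • b i) (g • x)).card : ℝ) := by
        exact_mod_cast hcard
      convert! hcard'.trans (add_le_add le_rfl hfar)
    have h3 : ∑ g ∈ F, μ.real (P i ∩ D i g) ≤
        ∑ g ∈ F, μ.real (P i ∩ E₀ g) + ∑ g ∈ F, μ.real (P i ∩ (D i g \ E₀ g)) := by
      rw [← Finset.sum_add_distrib]
      refine Finset.sum_le_sum fun g _ => ?_
      refine le_trans (measureReal_mono ?_) (measureReal_union_le _ _)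
      rintro x ⟨hx1, hx2⟩
      by_cases hx : x ∈ E₀ g
      · exact Or.inl ⟨hx1, hx⟩
      · exact Or.inr ⟨hx1, hx2, hx⟩
    nlinarith
  have htotal : ∑ g ∈ F, err g ≤ 3 * s * F.card := by
    have e1 : ∑ g ∈ F, err g = ∑ i, ∑ g ∈ F, μ.real (P i ∩ D i g) := Finset.sum_comm
    have e2 : ∑ i, ∑ g ∈ F, μ.real (P i ∩ E₀ g) ≤ s * F.card := by
      rw [Finset.sum_comm]
      calc ∑ g ∈ F, ∑ i, μ.real (P i ∩ E₀ g) ≤ ∑ _g ∈ F, s :=
            Finset.sum_le_sum fun g _ => (hPsum _ (hE₀ g)).trans ((hE₀m g).trans_le hY₀s.le)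
        _ = s * F.card := by simp [mul_comm]
    have e3 : ∑ i, s * F.card * μ.real (P i) ≤ s * F.card := by
      rw [← Finset.mul_sum]
      exact mul_le_of_le_one_right (by positivity) hPsum1
    calc ∑ g ∈ F, err g = ∑ i, ∑ g ∈ F, μ.real (P i ∩ D i g) := e1
      _ ≤ ∑ i, (2 * ∑ g ∈ F, μ.real (P i ∩ E₀ g) + s * F.card * μ.real (P i)) :=
          Finset.sum_le_sum fun i _ => hcell i
      _ = 2 * ∑ i, ∑ g ∈ F, μ.real (P i ∩ E₀ g) + ∑ i, s * F.card * μ.real (P i) := by
          rw [Finset.sum_add_distrib, Finset.mul_sum]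
      _ ≤ 3 * s * F.card := by linarith
  refine ⟨fun g i => lab (g • b i), F.filter fun g => 48 * s ≤ err g, ?_, ?_⟩
  · have h1 := (card_filter_mul_le F err herr0 (48 * s)).trans htotal
    have h2 : (16 * ((F.filter fun g => 48 * s ≤ err g).card : ℝ)) * (3 * s) ≤
        F.card * (3 * s) := by linarith
    have h3 := le_of_mul_le_mul_right h2 (by positivity)
    exact_mod_cast h3
  · intro g hg hgB h hh hhB hcol
    have hg' : err g < 48 * s := not_le.1 fun hc => hgB (Finset.mem_filter.2 ⟨hg, hc⟩)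
    have hh' : err h < 48 * s := not_le.1 fun hc => hhB (Finset.mem_filter.2 ⟨hh, hc⟩)
    have hsub : {x | 5 * s ≤ ρ (g • x) (h • x)} ⊆
        Z 0 ∪ ((⋃ i, P i ∩ D i g) ∪ ⋃ i, P i ∩ D i h) := by
      intro x hx
      by_cases hx0 : x ∈ Z 0
      · exact Or.inl hx0
      obtain ⟨i, hi⟩ := hPcov x hx0
      right
      by_contra hcon
      simp only [mem_union, mem_iUnion, not_or, not_exists] at hcon
      have k1 : g • x ∈ B (lab (g • b i)) := by
        by_contra hc
        exact hcon.1 i ⟨hi, hc⟩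
      have k2 : h • x ∈ B (lab (h • b i)) := by
        by_contra hc
        exact hcon.2 i ⟨hi, hc⟩
      have k3 : lab (g • b i) = lab (h • b i) := congrFun hcol i
      rw [← k3] at k2
      exact absurd (hBd _ _ k1 _ k2) (not_lt.2 hx)
    have m1 := measureReal_mono (μ := μ) hsub
    have m2 := measureReal_union_le (μ := μ) (Z 0) ((⋃ i, P i ∩ D i g) ∪ ⋃ i, P i ∩ D i h)
    have m3 := measureReal_union_le (μ := μ) (⋃ i, P i ∩ D i g) (⋃ i, P i ∩ D i h)
    have m4 : μ.real (⋃ i, P i ∩ D i g) ≤ err g := measureReal_iUnion_fintype_le _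
    have m5 : μ.real (⋃ i, P i ∩ D i h) ≤ err h := measureReal_iUnion_fintype_le _
    have m6 : s ^ 2 ≤ s := by nlinarith
    linarith

end Pool.Agent.MP_a6e297_an

end

section

/-! A criterion for the scaling entropy growth gap. -/

namespace Pool.Agent.MP_a6e297_an

open MeasureTheory Set Filter Topology
open scoped ENNReal NNReal

universe u

open Classical in
/-- The number of elements of `F` pushed out of `F` by left multiplication with `s`. -/
noncomputable def outCard {G : Type*} [Group G] (F : Finset G) (s : G) : ℕ :=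
  (F.filter fun g => s * g ∉ F).card

theorem outCard_le {G : Type*} [Group G] (F : Finset G) (s : G) :
    outCard F s ≤ (symmDiff ((s * ·) '' (F : Set G)) (F : Set G)).ncard := by
  classical
  have hfin : (symmDiff ((s * ·) '' (F : Set G)) (F : Set G)).Finite :=
    ((F.finite_toSet.image _).union F.finite_toSet).subset symmDiff_subset_union
  rw [outCard, ← Set.ncard_coe_finset]
  refine Set.ncard_le_ncard_of_injOn (s * ·) ?_ (mul_right_injective s).injOn hfin
  intro g hg
  simp only [Finset.coe_filter, mem_ofPred_eq] at hg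
  exact Or.inl ⟨⟨g, hg.1, rfl⟩, hg.2⟩

theorem IsFolnerSeq.tendsto_outCard {G : Type} [Group G] {F : ℕ → Finset G}
    (hF : IsFolnerSeq F) (s : G) :
    Tendsto (fun n => (outCard (F n) s : ℝ) / (F n).card) atTop (𝓝 0) := by
  refine squeeze_zero (fun n => by positivity) (fun n => ?_) (hF.2 s)
  gcongr
  exact outCard_le _ _

theorem IsFolnerSeq.eventually_mul_lt {G : Type} [Group G] {F : ℕ → Finset G}
    (hF : IsFolnerSeq F) (s : G) (c : ℕ) :
    ∀ᶠ n in atTop, c * outCard (F n) s < (F n).card := by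
  have h1 : Tendsto (fun n => (c : ℝ) * ((outCard (F n) s : ℝ) / (F n).card)) atTop (𝓝 0) := by
    simpa using (hF.tendsto_outCard s).const_mul (c : ℝ)
  filter_upwards [h1.eventually (gt_mem_nhds one_pos)] with n hn
  have hc : (0 : ℝ) < (F n).card := by exact_mod_cast (hF.1 n).card_pos
  rw [← mul_div_assoc, div_lt_one hc] at hn
  exact_mod_cast hn

theorem card_fibre_le {G : Type*} [Group G] (π : G →* Multiplicative ℤ) {t : G}
    (ht : π t = Multiplicative.ofAdd 1) (F : Finset G) (k : Multiplicative ℤ) :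
    (F.filter fun g => π g = k).card ≤ outCard F t := by
  classical
  have hπ : ∀ (m : ℕ) (g : G), (π (t ^ m * g)).toAdd = m + (π g).toAdd := by
    intro m g
    rw [map_mul, map_pow, ht]
    simp
  have hex : ∀ g : G, ∃ m : ℕ, t ^ (m + 1) * g ∉ F := by
    intro g
    by_contra hcon
    push Not at hcon
    have hinj : Function.Injective fun m : ℕ => t ^ (m + 1) * g := by
      intro m m' h
      have := congrArg (fun x => (π x).toAdd) h
      simp only [hπ] at this
      omega
    exact Set.infinite_of_injective_forall_mem hinj hcon F.finite_toSet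
  unfold outCard
  refine Finset.card_le_card_of_injOn (fun g => t ^ Nat.find (hex g) * g) ?_ ?_
  · intro g hg
    simp only [Finset.coe_filter, mem_ofPred_eq] at hg ⊢
    constructor
    · rcases h : Nat.find (hex g) with _ | m
      · simpa using hg.1
      · have := Nat.find_min (hex g) (m := m) (by omega)
        simpa using this
    · have := Nat.find_spec (hex g)
      rwa [pow_succ', mul_assoc] at this
  · intro g hg g' hg' h
    simp only [Finset.coe_filter, mem_ofPred_eq] at hg hg'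
    have h1 := congrArg (fun x => (π x).toAdd) h
    simp only [hπ, hg.2, hg'.2] at h1
    have h2 : Nat.find (hex g) = Nat.find (hex g') := by omega
    simp only [h2] at h
    exact mul_left_cancel h

theorem cover_of_lt {X : Type u} [MeasurableSpace X] {μ : Measure X} [IsProbabilityMeasure μ]
    {ρ : X → X → ℝ≥0} {ε : ℝ≥0} {k : ℕ}
    (h : ∃ Y : Fin (k + 1) → Set X, (∀ i, MeasurableSet (Y i)) ∧
      (⋃ i, Y i) = Set.univ ∧ μ (Y 0) < ε ∧
      ∀ i : Fin k, (⨆ x ∈ Y i.succ, ⨆ y ∈ Y i.succ, (ρ x y : ℝ≥0∞)) < ε) :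
    Cover μ (fun x y => (ρ x y : ℝ)) ε k := by
  obtain ⟨Y, h1, h2, h3, h4⟩ := h
  refine ⟨Y, h1, fun x => mem_iUnion.1 (h2 ▸ mem_univ x), ?_, fun i x hx y hy => ?_⟩
  · have := (ENNReal.toReal_lt_toReal (measure_ne_top μ _) ENNReal.coe_ne_top).2 h3
    simpa [Measure.real] using this
  · have h5 : (ρ x y : ℝ≥0∞) ≤ ⨆ x ∈ Y i.succ, ⨆ y ∈ Y i.succ, (ρ x y : ℝ≥0∞) :=
      le_iSup₂_of_le x hx (le_iSup₂_of_le y hy le_rfl)
    exact_mod_cast h5.trans_lt (h4 i)

theorem exists_cover {X : Type u} [MeasurableSpace X] {μ : Measure X} [IsProbabilityMeasure μ]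
    {ρ : X → X → ℝ≥0} {ε : ℝ≥0} (h : epsEntropy μ ρ ε < ⊤) :
    ∃ k, 0 < k ∧ Cover μ (fun x y => (ρ x y : ℝ)) ε k := by
  unfold epsEntropy at h
  simp only [iInf_lt_iff] at h
  obtain ⟨k, hk, hY, -⟩ := h
  exact ⟨k, hk, cover_of_lt hY⟩

theorem le_epsEntropy {X : Type u} [MeasurableSpace X] {μ : Measure X} [IsProbabilityMeasure μ]
    {ρ : X → X → ℝ≥0} {ε : ℝ≥0} {c : ℝ≥0∞}
    (h : ∀ k, 0 < k → Cover μ (fun x y => (ρ x y : ℝ)) ε k → c ≤ ENNReal.ofReal (Real.logb 2 k)) :
    c ≤ epsEntropy μ ρ ε :=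
  le_iInf fun k => le_iInf fun hk => le_iInf fun hY => h k hk (cover_of_lt hY)

/-- Freeness and generation give a scale at which `g a b` and `g b a` act differently. -/
theorem exists_scale {G : Type} [Group G] [Countable G] {X : Type u} [MeasurableSpace X]
    {μ : Measure X} [IsProbabilityMeasure μ] [MulAction G X] [SMulInvariantMeasure G X μ]
    (hfree : ∀ g : G, g ≠ 1 → μ {x | g • x = x} = 0) {ρ : X → X → ℝ≥0}
    (hgen : ∃ X' : Set X, μ X'ᶜ = 0 ∧
      ∀ x ∈ X', ∀ y ∈ X', x ≠ y → ∃ g : G, 0 < ρ (g • x) (g • y))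
    {p q : G} (hpq : p ≠ q) :
    ∃ (g : G) (r : ℝ), 0 < r ∧ 0 < μ.real {x | r ≤ (ρ ((g * p) • x) ((g * q) • x) : ℝ)} := by
  obtain ⟨X', hX', hgen⟩ := hgen
  by_contra hcon
  push Not at hcon
  have hnull : ∀ (w : G × ℕ),
      μ {x | 1 / ((w.2 : ℝ) + 1) ≤ (ρ ((w.1 * p) • x) ((w.1 * q) • x) : ℝ)} = 0 := by
    intro w
    have := hcon w.1 _ (Nat.one_div_pos_of_nat (n := w.2))
    exact (measureReal_eq_zero_iff).1 (le_antisymm this measureReal_nonneg)
  have hne : q⁻¹ * p ≠ 1 := fun h => hpq (inv_mul_eq_one.1 h).symm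
  have hsub : (univ : Set X) ⊆ ((p • ·) ⁻¹' X'ᶜ ∪ (q • ·) ⁻¹' X'ᶜ) ∪ ({x | (q⁻¹ * p) • x = x} ∪
      ⋃ w : G × ℕ, {x | 1 / ((w.2 : ℝ) + 1) ≤ (ρ ((w.1 * p) • x) ((w.1 * q) • x) : ℝ)}) := by
    intro x _
    by_cases h1 : p • x ∈ X'
    · by_cases h2 : q • x ∈ X'
      · by_cases h3 : p • x = q • x
        · refine Or.inr (Or.inl ?_)
          change (q⁻¹ * p) • x = x
          rw [mul_smul, h3, inv_smul_smul]
        · obtain ⟨g, hg⟩ := hgen _ h1 _ h2 h3
          obtain ⟨m, hm⟩ := exists_nat_one_div_lt (show (0 : ℝ) < ρ (g • p • x) (g • q • x) from hg)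
          refine Or.inr (Or.inr (mem_iUnion.2 ⟨(g, m), ?_⟩))
          simpa only [mem_ofPred_eq, mul_smul] using hm.le
      · exact Or.inl (Or.inr h2)
    · exact Or.inl (Or.inl h1)
  have h0 : μ univ = 0 := measure_mono_null hsub (measure_union_null
    (measure_union_null (measure_preimage_smul_null hX' p) (measure_preimage_smul_null hX' q))
    (measure_union_null (hfree _ hne) (measure_iUnion_null hnull)))
  simp at h0

theorem chain_bound {G : Type} [Group G] {X : Type u} [MeasurableSpace X]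
    {μ : Measure X} [IsProbabilityMeasure μ] [MulAction G X] [SMulInvariantMeasure G X μ]
    {ρ : X → X → ℝ} (hs : ∀ x y, ρ x y = ρ y x) (ht : ∀ x y z, ρ x z ≤ ρ x y + ρ y z)
    {a b c g h : G} (hcomm : a * ((g * h⁻¹)⁻¹ * b * (g * h⁻¹)) = ((g * h⁻¹)⁻¹ * b * (g * h⁻¹)) * a)
    {r θ : ℝ}
    (h1 : μ.real {x | r ≤ ρ ((c * g) • x) ((c * h) • x)} ≤ θ)
    (h2 : μ.real {x | r ≤ ρ ((c * a * g) • x) ((c * a * h) • x)} ≤ θ)
    (h3 : μ.real {x | r ≤ ρ ((c * b * g) • x) ((c * b * h) • x)} ≤ θ)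
    (h4 : μ.real {x | r ≤ ρ ((c * a * b * g) • x) ((c * a * b * h) • x)} ≤ θ) :
    μ.real {x | 4 * r ≤ ρ ((c * (a * b)) • x) ((c * (b * a)) • x)} ≤ 4 * θ := by
  have inv : ∀ (p q k : G), μ.real {x | r ≤ ρ ((p * k) • x) ((q * k) • x)} =
      μ.real {x | r ≤ ρ (p • x) (q • x)} := by
    intro p q k
    have := measure_preimage_smul μ k {x | r ≤ ρ (p • x) (q • x)}
    simp only [Measure.real, ← this, preimage_ofPred_eq, mul_smul]
  set w := g * h⁻¹ with hw
  rw [← inv _ _ (g⁻¹ * b * w * a)] at h1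
  rw [← inv _ _ (g⁻¹ * b * w)] at h2
  rw [← inv _ _ (h⁻¹ * a)] at h3
  rw [← inv _ _ h⁻¹] at h4
  have e1 : c * g * (g⁻¹ * b * w * a) = c * b * w * a := by group
  have e1' : c * h * (g⁻¹ * b * w * a) = c * (w⁻¹ * b * w * a) := by rw [hw]; group
  have e2 : c * a * g * (g⁻¹ * b * w) = c * a * b * w := by group
  have e2' : c * a * h * (g⁻¹ * b * w) = c * (w⁻¹ * b * w * a) := by
    rw [← hcomm, hw]; group
  have e3 : c * b * g * (h⁻¹ * a) = c * b * w * a := by rw [hw]; group
  have e3' : c * b * h * (h⁻¹ * a) = c * (b * a) := by group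
  have e4 : c * a * b * g * h⁻¹ = c * a * b * w := by rw [hw]; group
  have e4' : c * a * b * h * h⁻¹ = c * (a * b) := by group
  rw [e1, e1'] at h1
  rw [e2, e2'] at h2
  rw [e3, e3'] at h3
  rw [e4, e4'] at h4
  have hsub : {x | 4 * r ≤ ρ ((c * (a * b)) • x) ((c * (b * a)) • x)} ⊆
      ({x | r ≤ ρ ((c * b * w * a) • x) ((c * (w⁻¹ * b * w * a)) • x)} ∪
        {x | r ≤ ρ ((c * a * b * w) • x) ((c * (w⁻¹ * b * w * a)) • x)}) ∪
      ({x | r ≤ ρ ((c * b * w * a) • x) ((c * (b * a)) • x)} ∪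
        {x | r ≤ ρ ((c * a * b * w) • x) ((c * (a * b)) • x)}) := by
    intro x hx
    by_contra hcon
    simp only [mem_union, mem_ofPred_eq, not_or, not_le] at hcon hx
    obtain ⟨⟨k1, k2⟩, k3, k4⟩ := hcon
    have t1 := ht ((c * (a * b)) • x) ((c * a * b * w) • x) ((c * (b * a)) • x)
    have t2 := ht ((c * a * b * w) • x) ((c * (w⁻¹ * b * w * a)) • x) ((c * (b * a)) • x)
    have t3 := ht ((c * (w⁻¹ * b * w * a)) • x) ((c * b * w * a) • x) ((c * (b * a)) • x)
    have s1 := hs ((c * (a * b)) • x) ((c * a * b * w) • x)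
    have s2 := hs ((c * (w⁻¹ * b * w * a)) • x) ((c * b * w * a) • x)
    linarith
  refine (measureReal_mono hsub).trans ((measureReal_union_le _ _).trans ?_)
  refine (add_le_add (measureReal_union_le _ _) (measureReal_union_le _ _)).trans ?_
  linarith

theorem key_count {G : Type} [Group G] [Countable G] (π : G →* Multiplicative ℤ) {t a b : G}
    (hπt : π t = Multiplicative.ofAdd 1) (hab : a * b ≠ b * a)
    (hcomm : ∀ w, π w ≠ 1 → a * (w⁻¹ * b * w) = (w⁻¹ * b * w) * a)
    {X : Type u} [MeasurableSpace X] {μ : Measure X} [IsProbabilityMeasure μ] [MulAction G X]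
    (hpres : ∀ g : G, MeasurePreserving (fun x : X => g • x) μ μ)
    (hfree : ∀ g : G, g ≠ 1 → μ {x | g • x = x} = 0) {ρ : X → X → ℝ≥0}
    (hρ : IsGoodSemimetric G μ ρ) :
    ∃ (δ : ℝ≥0) (M : ℕ) (S : Fin 4 → G), 0 < δ ∧ 0 < M ∧ ∀ (F : Finset G) (K : ℕ), F.Nonempty →
      Cover μ (fun x y => (((∑ g ∈ F, ρ (g • x) (g • y)) / F.card : ℝ≥0) : ℝ)) δ K →
      (∀ l, 16 * outCard F (S l) ≤ F.card) → F.card ≤ 2 * M ^ (4 * K) * outCard F t := by
  classical
  obtain ⟨-, hs, ht, -, hadm, hgen⟩ := hρ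
  have : SMulInvariantMeasure G X μ :=
    ⟨fun g s hs => (hpres g).measure_preimage hs.nullMeasurableSet⟩
  obtain ⟨c, r, hr, hη⟩ := exists_scale hfree hgen hab
  set η := μ.real {x | r ≤ (ρ ((c * (a * b)) • x) ((c * (b * a)) • x) : ℝ)} with hηdef
  obtain ⟨s, hs0, hs1, hsr, hsη⟩ : ∃ s : ℝ, 0 < s ∧ s ≤ 1 ∧ 20 * s ≤ r ∧ 388 * s < η :=
    ⟨min 1 (min (r / 20) (η / 400)), by positivity, min_le_left _ _,
      by have := (min_le_right 1 (min (r / 20) (η / 400))).trans (min_le_left _ _); linarith,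
      by have := (min_le_right 1 (min (r / 20) (η / 400))).trans (min_le_right _ _); linarith⟩
  obtain ⟨M, hM, hcov⟩ := exists_cover (hadm ⟨s, hs0.le⟩ hs0)
  have hs' : ∀ x y, (ρ x y : ℝ) = ρ y x := fun x y => by rw [hs]
  have ht' : ∀ x y z, (ρ x z : ℝ) ≤ ρ x y + ρ y z := fun x y z => by exact_mod_cast ht x y z
  let S : Fin 4 → G := ![c, c * a, c * b, c * a * b]
  refine ⟨⟨s ^ 2, by positivity⟩, M, S, show (0 : ℝ) < s ^ 2 by positivity, hM, ?_⟩
  intro F K hF hK hout
  obtain ⟨col, Bad, hBad, hcol⟩ := exists_colouring hpres (fun x y => (ρ x y).2) hs' ht' hs0 hs1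
    hM hcov F hF (K := K) (by
      have hK' : Cover μ (fun x y => (((∑ g ∈ F, ρ (g • x) (g • y)) / F.card : ℝ≥0) : ℝ))
        (s ^ 2) K := hK
      simpa using hK')
  let Good : Finset G := F.filter fun g => ∀ l, S l * g ∈ F ∧ S l * g ∉ Bad
  have hGood : F.card ≤ 2 * Good.card := by
    have hsub : F ⊆ Good ∪ Finset.univ.biUnion fun l : Fin 4 =>
        (F.filter fun g => S l * g ∉ F) ∪ F.filter fun g => S l * g ∈ Bad := by
      intro g hg
      by_cases h : g ∈ Good
      · exact Finset.mem_union_left _ h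
      · refine Finset.mem_union_right _ ?_
        simp only [Good, Finset.mem_filter, hg, true_and, not_forall, not_and, not_not] at h
        obtain ⟨l, hl⟩ := h
        simp only [Finset.mem_biUnion, Finset.mem_univ, true_and, Finset.mem_union,
          Finset.mem_filter, hg]
        refine ⟨l, ?_⟩
        by_cases h' : S l * g ∈ F
        · exact Or.inr (hl h')
        · exact Or.inl h'
    have hl : ∀ l : Fin 4, 8 * ((F.filter fun g => S l * g ∉ F) ∪
        F.filter fun g => S l * g ∈ Bad).card ≤ F.card := by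
      intro l
      have k1 : (F.filter fun g => S l * g ∈ Bad).card ≤ Bad.card :=
        Finset.card_le_card_of_injOn (S l * ·) (fun g hg => (Finset.mem_filter.1 hg).2)
          (mul_right_injective _).injOn
      have k2 := Finset.card_union_le (F.filter fun g => S l * g ∉ F)
        (F.filter fun g => S l * g ∈ Bad)
      have k3 : 16 * (F.filter fun g => S l * g ∉ F).card ≤ F.card := hout l
      omega
    have k4 := (Finset.card_le_card hsub).trans (Finset.card_union_le _ _)
    have k5 := Finset.card_biUnion_le (s := (Finset.univ : Finset (Fin 4))) (t := fun l : Fin 4 =>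
        (F.filter fun g => S l * g ∉ F) ∪ F.filter fun g => S l * g ∈ Bad)
    rw [Fin.sum_univ_four] at k5
    have := hl 0
    have := hl 1
    have := hl 2
    have := hl 3
    omega
  have hsame : ∀ g ∈ Good, ∀ h ∈ Good, (fun l => col (S l * g)) = (fun l => col (S l * h)) →
      π g = π h := by
    intro g hg h hh hc
    by_contra hne
    have hg' := (Finset.mem_filter.1 hg).2
    have hh' := (Finset.mem_filter.1 hh).2
    have hb := fun l => hcol _ (hg' l).1 (hg' l).2 _ (hh' l).1 (hh' l).2 (congrFun hc l)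
    have hw : π (g * h⁻¹) ≠ 1 := by
      rw [map_mul, map_inv]
      exact fun h' => hne (mul_inv_eq_one.1 h')
    have := chain_bound (μ := μ) (c := c) hs' ht' (hcomm _ hw) (hb 0) (hb 1) (hb 2) (hb 3)
    have h2 : η ≤ μ.real {x | 4 * (5 * s) ≤ (ρ ((c * (a * b)) • x) ((c * (b * a)) • x) : ℝ)} :=
      measureReal_mono fun x hx => by
        simp only [mem_ofPred_eq] at hx ⊢
        linarith
    linarith
  have hcount : Good.card ≤ outCard F t * M ^ (4 * K) := by
    have := Finset.card_le_mul_card_image_of_maps_to (s := Good)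
      (t := (Finset.univ : Finset (Fin 4 → Fin K → Fin M))) (f := fun g l => col (S l * g))
      (fun _ _ => Finset.mem_univ _) (outCard F t) (by
        intro κ _
        rcases (Good.filter fun g => (fun l => col (S l * g)) = κ).eq_empty_or_nonempty with
          h | ⟨g₀, hg₀⟩
        · simp only [h, Finset.card_empty, Nat.zero_le]
        · refine le_trans (Finset.card_le_card ?_) (card_fibre_le π hπt F (π g₀))
          intro g hg
          rw [Finset.mem_filter] at hg hg₀ ⊢
          exact ⟨(Finset.mem_filter.1 hg.1).1, hsame g hg.1 g₀ hg₀.1 (hg.2.trans hg₀.2.symm)⟩)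
    simpa [← pow_mul, mul_comm] using this
  calc F.card ≤ 2 * Good.card := hGood
    _ ≤ 2 * (outCard F t * M ^ (4 * K)) := by gcongr
    _ = 2 * M ^ (4 * K) * outCard F t := by ring

theorem gap_of_commuting {G : Type} [Group G] [Countable G] (π : G →* Multiplicative ℤ)
    {t a b : G} (hπt : π t = Multiplicative.ofAdd 1) (hab : a * b ≠ b * a)
    (hcomm : ∀ w, π w ≠ 1 → a * (w⁻¹ * b * w) = (w⁻¹ * b * w) * a)
    {F : ℕ → Finset G} (hF : IsFolnerSeq F) :
    ∃ φ : ℕ → ℝ≥0, Tendsto φ atTop atTop ∧ IsUniformLowerBound.{u} G F φ := by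
  classical
  let m : ℕ → ℕ := fun n =>
    Nat.findGreatest (fun j => 2 * j ^ (4 * j) * outCard (F n) t < (F n).card) n
  have hm : ∀ j, ∀ᶠ n in atTop, j ≤ m n ∧
      2 * m n ^ (4 * m n) * outCard (F n) t < (F n).card := by
    intro j
    filter_upwards [hF.eventually_mul_lt t (2 * j ^ (4 * j)), eventually_ge_atTop j] with n h1 h2
    exact ⟨Nat.le_findGreatest h2 h1,
      Nat.findGreatest_spec (P := fun j => 2 * j ^ (4 * j) * outCard (F n) t < (F n).card) h2 h1⟩
  have hmt : Tendsto m atTop atTop := tendsto_atTop.2 fun j => (hm j).mono fun n h => h.1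
  refine ⟨fun n => Real.toNNReal (Real.logb 2 (m n)), ?_, ?_⟩
  · exact Real.tendsto_toNNReal_atTop.comp ((Real.tendsto_logb_atTop one_lt_two).comp
      (tendsto_natCast_atTop_atTop.comp hmt))
  intro X _ _ μ _ _ hpres hfree ρ hρ ε _
  obtain ⟨δ, M, S, hδ, hM, hkey⟩ := key_count π hπt hab hcomm hpres hfree hρ
  refine ⟨δ, hδ, lt_of_le_of_lt (limsup_le_of_le (h := ?_)) ENNReal.one_lt_top⟩
  have hS : ∀ᶠ n in atTop, ∀ l, 16 * outCard (F n) (S l) ≤ (F n).card :=
    eventually_all.2 fun l => (hF.eventually_mul_lt (S l) 16).mono fun n h => h.le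
  filter_upwards [hS, hm M] with n h1 h2
  refine ENNReal.div_le_of_le_mul ?_
  rw [one_mul]
  refine le_epsEntropy fun K hK hcov => ?_
  have h3 := hkey (F n) K (hF.1 n) hcov h1
  have h4 : m n ≤ K := by
    by_contra hcon
    have h5 : M ^ (4 * K) ≤ m n ^ (4 * m n) :=
      (Nat.pow_le_pow_left h2.1 _).trans (Nat.pow_le_pow_right (by omega) (by omega))
    have h6 : 2 * M ^ (4 * K) * outCard (F n) t ≤ 2 * m n ^ (4 * m n) * outCard (F n) t := by
      gcongr
    omega
  refine ENNReal.ofReal_le_ofReal ?_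
  have h7 : (0 : ℝ) < m n := by exact_mod_cast (by omega : 0 < m n)
  exact Real.logb_le_logb_of_le one_lt_two h7 (by exact_mod_cast h4)

end Pool.Agent.MP_a6e297_an

end

section

/-! The lamplighter group: countability, a Folner sequence, and the gap. -/

namespace Pool.Agent.MP_a6e297_an

open MeasureTheory Set Filter Topology
open scoped ENNReal NNReal

universe u

variable {A : Type} [Group A]

/-- The projection to `ℤ`. -/
def proj (A : Type) [Group A] : Lamplighter A →* Multiplicative ℤ :=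
  RegularWreathProduct.rightHom.comp (Lamplighter A).subtype

theorem proj_apply (g : Lamplighter A) : proj A g = g.1.right := rfl

/-- The shift by `q`. -/
def shift (A : Type) [Group A] (q : ℤ) : Lamplighter A :=
  ⟨⟨1, Multiplicative.ofAdd q⟩, by
    change (Function.mulSupport (1 : Multiplicative ℤ → A)).Finite
    simp⟩

/-- The lamp `a` at the origin. -/
noncomputable def lamp (a : A) : Lamplighter A :=
  ⟨⟨Pi.mulSingle 1 a, 1⟩, by
    change (Function.mulSupport (Pi.mulSingle (1 : Multiplicative ℤ) a : Multiplicative ℤ → A)).Finite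
    exact (finite_singleton _).subset Pi.mulSupport_mulSingle_subset⟩

theorem lamp_ne {a b : A} (h : a * b ≠ b * a) : lamp a * lamp b ≠ lamp b * lamp a := by
  intro e
  have := congrArg (fun g : Lamplighter A => g.1.left 1) e
  simp [lamp] at this
  exact h this

theorem lamp_comm (a b : A) (w : Lamplighter A) (hw : proj A w ≠ 1) :
    lamp a * (w⁻¹ * lamp b * w) = (w⁻¹ * lamp b * w) * lamp a := by
  rw [proj_apply] at hw
  apply Subtype.ext
  ext x
  · by_cases hx : x = 1
    · subst hx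
      simp [lamp, Pi.mulSingle_eq_of_ne hw]
    · simp [lamp, Pi.mulSingle_eq_of_ne hx]
  · simp [lamp]

/-- Elements with position in `[0, n]` and lamps within distance `L` of the position. -/
def box (A : Type) [Group A] (L : ℕ) (q : ℤ) : Set (Lamplighter A) :=
  {g | g.1.right.toAdd = q ∧ ∀ x : Multiplicative ℤ, g.1.left x ≠ 1 → |x.toAdd - q| ≤ L}

theorem box_finite [Finite A] (L : ℕ) (q : ℤ) : (box A L q).Finite := by
  refine Set.Finite.of_finite_image
    (f := fun g (x : Icc (q - L) (q + L)) => g.1.left (Multiplicative.ofAdd x.1))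
    (toFinite _) ?_
  intro g hg h hh e
  apply Subtype.ext
  ext x
  · by_cases hx : |x.toAdd - q| ≤ L
    · rw [abs_le] at hx
      exact congrFun e ⟨x.toAdd, by constructor <;> linarith [hx.1, hx.2]⟩
    · have h1 : g.1.left x = 1 := by
        by_contra hc
        exact hx (hg.2 x hc)
      have h2 : h.1.left x = 1 := by
        by_contra hc
        exact hx (hh.2 x hc)
      rw [h1, h2]
  · exact hg.1.trans hh.1.symm

theorem exists_bound (g : Lamplighter A) :
    ∃ N : ℕ, ∀ x : Multiplicative ℤ, g.1.left x ≠ 1 → |x.toAdd| ≤ N := by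
  have hfin : (Function.mulSupport g.1.left).Finite := g.2
  obtain ⟨N, hN⟩ := (hfin.image fun x => x.toAdd.natAbs).bddAbove
  refine ⟨N, fun x hx => ?_⟩
  have := hN ⟨x, hx, rfl⟩
  simp only at this
  rw [← Int.natCast_natAbs]
  exact_mod_cast this

theorem countable_lamplighter [Finite A] : Countable (Lamplighter A) := by
  rw [← countable_univ_iff]
  refine (countable_iUnion fun w : ℕ × ℤ => (box_finite (A := A) w.1 w.2).countable).mono ?_
  intro g _
  obtain ⟨N, hN⟩ := exists_bound g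
  refine mem_iUnion.2 ⟨(N + g.1.right.toAdd.natAbs, g.1.right.toAdd), rfl, fun x hx => ?_⟩
  have := hN x hx
  push_cast
  exact (abs_sub _ _).trans (by linarith)

theorem mul_mem_box {g h : Lamplighter A} {L : ℕ} {q : ℤ} (hh : h ∈ box A L q)
    (hg : ∀ x : Multiplicative ℤ, g.1.left x ≠ 1 → |x.toAdd - (g.1.right.toAdd + q)| ≤ L) :
    g * h ∈ box A L (g.1.right.toAdd + q) := by
  refine ⟨by simp [hh.1], fun x hx => ?_⟩
  by_cases h1 : g.1.left x = 1
  · have h2 : h.1.left (g.1.right⁻¹ * x) ≠ 1 := by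
      intro h2
      apply hx
      simp [h1, h2]
    have := hh.2 _ h2
    simp only [toAdd_mul, toAdd_inv] at this
    convert this using 2
    ring
  · exact hg x h1

theorem ncard_box_le [Finite A] (L : ℕ) (q q' : ℤ) : (box A L q).ncard ≤ (box A L q').ncard := by
  refine Set.ncard_le_ncard_of_injOn (shift A (q' - q) * ·) ?_ (mul_right_injective _).injOn
    (box_finite L q')
  intro h hh
  have := mul_mem_box (g := shift A (q' - q)) hh (fun x hx => absurd rfl hx)
  simpa [shift] using this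

/-- The Folner sets. -/
noncomputable def folner (A : Type) [Group A] [Finite A] (n : ℕ) : Finset (Lamplighter A) := by
  classical
  exact (Finset.Icc (0 : ℤ) n).biUnion fun q => (box_finite (A := A) (2 * n) q).toFinset

theorem mem_folner [Finite A] {n : ℕ} {g : Lamplighter A} :
    g ∈ folner A n ↔ ∃ q : ℤ, (0 ≤ q ∧ q ≤ n) ∧ g ∈ box A (2 * n) q := by
  simp [folner]

theorem card_biUnion_box [Finite A] [DecidableEq (Lamplighter A)] (L : ℕ) (I : Finset ℤ) :
    (I.biUnion fun q => (box_finite (A := A) L q).toFinset).card =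
      I.card * (box A L 0).ncard := by
  rw [Finset.card_biUnion]
  · rw [Finset.sum_congr rfl (g := fun _ => (box A L 0).ncard)]
    · simp
    · intro q _
      rw [← Set.ncard_eq_toFinset_card _ (box_finite L q)]
      exact le_antisymm (ncard_box_le L q 0) (ncard_box_le L 0 q)
  · intro q _ q' _ hne
    rw [Function.onFun, Finset.disjoint_left]
    intro g hg hg'
    rw [Set.Finite.mem_toFinset] at hg hg'
    exact hne (hg.1.symm.trans hg'.1)

theorem card_folner [Finite A] (n : ℕ) :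
    (folner A n).card = (n + 1) * (box A (2 * n) 0).ncard := by
  classical
  have := card_biUnion_box (A := A) (2 * n) (Finset.Icc (0 : ℤ) n)
  rw [Int.card_Icc] at this
  have e : ((n : ℤ) + 1 - 0).toNat = n + 1 := by omega
  rw [e] at this
  convert! this

theorem outCard_folner_le [Finite A] (g : Lamplighter A) {n : ℕ}
    (hg : ∀ x : Multiplicative ℤ, g.1.left x ≠ 1 → |x.toAdd| ≤ n) :
    outCard (folner A n) g ≤ (2 * g.1.right.toAdd.natAbs) * (box A (2 * n) 0).ncard := by
  classical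
  set p := g.1.right.toAdd with hp
  let I : Finset ℤ := Finset.Ico (0 : ℤ) p.natAbs ∪ Finset.Ioc ((n : ℤ) - p.natAbs) n
  have hI : I.card ≤ 2 * p.natAbs := by
    refine (Finset.card_union_le _ _).trans ?_
    rw [Int.card_Ico, Int.card_Ioc]
    omega
  refine le_trans ?_ (Nat.mul_le_mul_right _ hI)
  rw [← card_biUnion_box, outCard]
  refine Finset.card_le_card fun h hh => ?_
  simp only [Finset.mem_filter] at hh
  obtain ⟨hin, hout⟩ := hh
  obtain ⟨q, hq, hh⟩ := mem_folner.1 hin
  rw [Finset.mem_biUnion]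
  refine ⟨q, ?_, (Set.Finite.mem_toFinset _).2 hh⟩
  by_contra hq'
  simp only [I, Finset.mem_union, Finset.mem_Ico, Finset.mem_Ioc, not_or, not_and, not_lt,
    not_le] at hq'
  have h1 : 0 ≤ p + q ∧ p + q ≤ n := by omega
  refine hout (mem_folner.2 ⟨p + q, h1, mul_mem_box hh fun x hx => ?_⟩)
  have := hg x hx
  rw [abs_le] at this ⊢
  push_cast
  constructor <;> linarith [this.1, this.2, h1.1, h1.2]

theorem ncard_symmDiff_le {G : Type*} [Group G] (F : Finset G) (g : G) :
    (symmDiff ((g * ·) '' (F : Set G)) (F : Set G)).ncard ≤ outCard F g + outCard F g⁻¹ := by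
  classical
  have hsub : symmDiff ((g * ·) '' (F : Set G)) (F : Set G) ⊆
      (g * ·) '' (F.filter fun h => g * h ∉ F : Finset G) ∪
        (F.filter fun h => g⁻¹ * h ∉ F : Finset G) := by
    rintro x (⟨⟨h, hh, rfl⟩, hx⟩ | ⟨hx, hx'⟩)
    · exact Or.inl ⟨h, by simpa using ⟨hh, hx⟩, rfl⟩
    · refine Or.inr ?_
      simp only [Finset.coe_filter, mem_ofPred_eq]
      exact ⟨hx, fun h => hx' ⟨_, h, by simp⟩⟩
  refine (Set.ncard_le_ncard hsub (toFinite _)).trans ((Set.ncard_union_le _ _).trans ?_)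
  rw [Set.ncard_image_of_injective _ (mul_right_injective g), Set.ncard_coe_finset,
    Set.ncard_coe_finset]
  rfl

theorem isFolnerSeq_folner [Finite A] : IsFolnerSeq (folner A) := by
  have hpos : ∀ n, 0 < (box A (2 * n) 0).ncard := fun n =>
    (Set.ncard_pos (box_finite _ _)).2 ⟨1, rfl, fun x hx => absurd rfl hx⟩
  refine ⟨fun n => Finset.card_pos.1 ?_, fun g => ?_⟩
  · rw [card_folner]
    exact Nat.mul_pos (Nat.succ_pos n) (hpos n)
  obtain ⟨N, hN⟩ := exists_bound g
  obtain ⟨N', hN'⟩ := exists_bound g⁻¹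
  set C : ℕ := 2 * g.1.right.toAdd.natAbs + 2 * (g⁻¹).1.right.toAdd.natAbs with hC
  have hlim : Tendsto (fun n : ℕ => (C : ℝ) / ((n : ℝ) + 1)) atTop (𝓝 0) :=
    tendsto_const_nhds.div_atTop (tendsto_atTop_add_const_right _ _ tendsto_natCast_atTop_atTop)
  refine squeeze_zero' (Eventually.of_forall fun n => by positivity) ?_ hlim
  filter_upwards [eventually_ge_atTop N, eventually_ge_atTop N'] with n h1 h2
  have k1 := outCard_folner_le g (n := n) fun x hx => (hN x hx).trans (by exact_mod_cast h1)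
  have k2 := outCard_folner_le g⁻¹ (n := n) fun x hx => (hN' x hx).trans (by exact_mod_cast h2)
  have k3 := ncard_symmDiff_le (folner A n) g
  have k4 : (symmDiff ((g * ·) '' (folner A n : Set (Lamplighter A)))
      (folner A n : Set (Lamplighter A))).ncard ≤ C * (box A (2 * n) 0).ncard := by
    rw [hC, add_mul]
    omega
  have k5 : (0 : ℝ) < (box A (2 * n) 0).ncard := by exact_mod_cast hpos n
  rw [card_folner]
  push_cast
  rw [div_le_div_iff₀ (by positivity) (by positivity)]
  have k6 : ((symmDiff ((g * ·) '' (folner A n : Set (Lamplighter A)))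
      (folner A n : Set (Lamplighter A))).ncard : ℝ) ≤ C * (box A (2 * n) 0).ncard := by
    exact_mod_cast k4
  have k7 : (0 : ℝ) ≤ (n : ℝ) + 1 := by positivity
  nlinarith [mul_le_mul_of_nonneg_right k6 k7]

theorem lamplighter_gap (A : Type) [Group A] [Finite A] (hA : ∃ a b : A, a * b ≠ b * a) :
    (∃ F : ℕ → Finset (Lamplighter A), IsFolnerSeq F) ∧
    ∀ F : ℕ → Finset (Lamplighter A), IsFolnerSeq F →
      ∃ φ : ℕ → ℝ≥0, Tendsto φ atTop atTop ∧ IsUniformLowerBound.{u} (Lamplighter A) F φ := by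
  obtain ⟨a, b, hab⟩ := hA
  have := countable_lamplighter (A := A)
  exact ⟨⟨_, isFolnerSeq_folner⟩, fun F hF =>
    gap_of_commuting (proj A) (t := shift A 1) rfl (lamp_ne hab) (lamp_comm a b) hF⟩

end Pool.Agent.MP_a6e297_an

end
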